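import Pool.Agent.Helper18.NF.Stmts2

/-! # EQG: equivariance of the place over a Galois extension `k' = k(S)` -/

set_option autoImplicit false

namespace Pool.Agent.Helper18.NF

open Pool.Agent.Helper14.BSC Polynomial

/-- isometric automorphisms of `ℂ_l` fix `ℚ_l` -/
theorem eqg_fix (l : ℕ) [Fact l.Prime] (τ : ℂ_[l] ≃+* ℂ_[l]) (hτ : ∀ z, ‖τ z‖ = ‖z‖)
    (q : ℚ_[l]) : τ (algebraMap ℚ_[l] ℂ_[l] q) = algebraMap ℚ_[l] ℂ_[l] q := by
  by_contra hne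
  have hpos : 0 < ‖τ (algebraMap ℚ_[l] ℂ_[l] q) - algebraMap ℚ_[l] ℂ_[l] q‖ :=
    norm_pos_iff.mpr (sub_ne_zero.mpr hne)
  obtain ⟨r, hr⟩ := Padic.rat_dense l q (half_pos hpos)
  have h1 : τ (algebraMap ℚ_[l] ℂ_[l] (r : ℚ_[l])) = algebraMap ℚ_[l] ℂ_[l] (r : ℚ_[l]) := by
    rw [map_ratCast, map_ratCast]
  have h2 : τ (algebraMap ℚ_[l] ℂ_[l] q) - algebraMap ℚ_[l] ℂ_[l] q =
      τ (algebraMap ℚ_[l] ℂ_[l] (q - r)) - algebraMap ℚ_[l] ℂ_[l] (q - r) := by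
    have e : algebraMap ℚ_[l] ℂ_[l] (q - r) =
        algebraMap ℚ_[l] ℂ_[l] q - algebraMap ℚ_[l] ℂ_[l] r := map_sub _ _ _
    rw [e, map_sub, h1]
    ring
  have h3 : ‖τ (algebraMap ℚ_[l] ℂ_[l] (q - r)) - algebraMap ℚ_[l] ℂ_[l] (q - r)‖ ≤
      ‖q - r‖ + ‖q - r‖ := by
    refine (norm_sub_le _ _).trans ?_
    rw [hτ, norm_algebraMap']
  rw [← h2] at h3
  linarith

theorem eqg_stab {k Ω : Type} [Field k] [Field Ω] [Algebra k Ω] (D : Sec k Ω)
    (S : Set (Acl k Ω)) (hS : ∀ g : GG k Ω, ∀ a ∈ S, g a ∈ S) (g : GG k Ω) (y : Ω)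
    (hy : y ∈ NN D S) : D.s g y ∈ NN D S := by
  intro h hh
  have h1 : g⁻¹ * h * g ∈ Stab S := by
    intro a ha
    have h2 : h (g a) = g a := hh _ (hS g a ha)
    show (g⁻¹ * h * g) a = a
    rw [AlgEquiv.mul_apply, AlgEquiv.mul_apply, h2, ← AlgEquiv.mul_apply, inv_mul_cancel]
    rfl
  have h3 : D.s (g⁻¹ * h * g) y = y := hy _ h1
  have h4 : h * g = g * (g⁻¹ * h * g) := by group
  calc D.s h (D.s g y) = (D.s h * D.s g) y := rfl
    _ = D.s (h * g) y := by rw [map_mul]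
    _ = D.s (g * (g⁻¹ * h * g)) y := by rw [← h4]
    _ = D.s g (D.s (g⁻¹ * h * g) y) := by rw [map_mul, AlgEquiv.mul_apply]
    _ = D.s g y := by rw [h3]

theorem eqg_adj {k Ω : Type} [Field k] [Field Ω] [Algebra k Ω] (D : Sec k Ω)
    (S : Set (Acl k Ω)) (hS : ∀ g : GG k Ω, ∀ a ∈ S, g a ∈ S) (k' : IntermediateField k Ω)
    (hk' : k' = IntermediateField.adjoin k ((fun a : Acl k Ω => (a : Ω)) '' S)) (g : GG k Ω)
    (c : Ω) (hc : c ∈ k') : D.s g c ∈ k' := by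
  have h1 : k' ≤ k'.comap ((D.s g : Ω ≃ₐ[k] Ω) : Ω →ₐ[k] Ω) := by
    conv_lhs => rw [hk']
    rw [IntermediateField.adjoin_le_iff]
    rintro x ⟨a, ha, rfl⟩
    show D.s g (a : Ω) ∈ k'
    rw [D.ext, hk']
    exact IntermediateField.subset_adjoin k _ ⟨g a, hS g a ha, rfl⟩
  exact h1 hc

theorem eqg_mem {k Ω : Type} [Field k] [Field Ω] [Algebra k Ω] (D : Sec k Ω)
    (S : Set (Acl k Ω)) (k' : IntermediateField k Ω)
    (hk' : k' = IntermediateField.adjoin k ((fun a : Acl k Ω => (a : Ω)) '' S))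
    (c : Ω) (hc : c ∈ k') : ∃ c0 : Acl k Ω, (c0 : Ω) = c ∧ c0 ∈ FF S := by
  have h1 : k' ≤ Acl k Ω := by
    rw [hk', IntermediateField.adjoin_le_iff]
    rintro x ⟨a, ha, rfl⟩
    exact a.2
  have h2 : k' ≤ NN D S := by
    rw [hk', IntermediateField.adjoin_le_iff]
    rintro x ⟨a, ha, rfl⟩
    exact coe_mem_NN.2 (subset_FF S ha)
  exact ⟨⟨c, h1 hc⟩, rfl, coe_mem_NN.1 (h2 hc)⟩

theorem st_EQG (hEQV : Pool.Agent.Helper22.FF.ST_EQV) : ST_EQG := by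
  intro k Ω _ _ _ _ _ D S hS k' hk' D' hLL l _ ι E₀ hE₀ hιE σ' hσ' P' g τ hτ hτι x x' hx'x
  have hgL : ∀ y : Ω, y ∈ LL D' → D.s g y ∈ LL D' := fun y hy =>
    (hLL _).mpr (eqg_stab D S hS g y ((hLL _).mp hy))
  have hgk : ∀ c : Ω, c ∈ k' → D.s g c ∈ k' := eqg_adj D S hS k' hk' g
  let Th : LL D' →+* LL D' :=
    { toFun := fun y => ⟨D.s g (y : Ω), hgL _ y.2⟩
      map_one' := Subtype.ext (map_one (D.s g))
      map_mul' := fun a b => Subtype.ext (map_mul (D.s g) (a : Ω) (b : Ω))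
      map_zero' := Subtype.ext (map_zero (D.s g))
      map_add' := fun a b => Subtype.ext (map_add (D.s g) (a : Ω) (b : Ω)) }
  let gk : k' →+* k' :=
    { toFun := fun c => ⟨D.s g (c : Ω), hgk _ c.2⟩
      map_one' := Subtype.ext (map_one (D.s g))
      map_mul' := fun a b => Subtype.ext (map_mul (D.s g) (a : Ω) (b : Ω))
      map_zero' := Subtype.ext (map_zero (D.s g))
      map_add' := fun a b => Subtype.ext (map_add (D.s g) (a : Ω) (b : Ω)) }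
  have hTh : ∀ c : k', Th (algebraMap k' (LL D') c) = algebraMap k' (LL D') (gk c) :=
    fun c => Subtype.ext rfl
  let r : (P'.C.comap Th) →+* P'.C :=
    { toFun := fun y => ⟨Th y, y.2⟩
      map_one' := Subtype.ext (map_one Th)
      map_mul' := fun a b => Subtype.ext (map_mul Th (a : LL D') (b : LL D'))
      map_zero' := Subtype.ext (map_zero Th)
      map_add' := fun a b => Subtype.ext (map_add Th (a : LL D') (b : LL D')) }
  have hr : ∀ (y : LL D') (h : y ∈ P'.C.comap Th), r ⟨y, h⟩ = ⟨Th y, h⟩ := fun _ _ => rfl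
  let P'' : Place D' l (σ'.comp gk) :=
    { C := P'.C.comap Th
      φ := P'.φ.comp r
      base := by
        intro c
        obtain ⟨h, hφ⟩ := P'.base (gk c)
        have h1 : Th (algebraMap k' (LL D') c) ∈ P'.C := by
          rw [hTh]
          exact h
        refine ⟨h1, ?_⟩
        show P'.φ ⟨Th (algebraMap k' (LL D') c), h1⟩ = σ' (gk c)
        rw [← hφ]
        exact congrArg P'.φ (Subtype.ext (hTh c))
      ker := by
        intro y
        have h1 := P'.ker (r y)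
        have h2 : ((r y : P'.C) : LL D') = Th (y : LL D') := rfl
        show P'.φ (r y) = 0 ↔ _
        rw [h1, h2, map_eq_zero, ← map_inv₀]
        exact Iff.rfl
      E := P'.E
      finE := P'.finE
      kum := by
        intro y hy M hM δ hδ c u hyu
        refine P'.kum (r y) hy M hM δ hδ (gk c) (Th u) ?_
        have h2 : ((r y : P'.C) : LL D') = Th (y : LL D') := rfl
        rw [h2, hyu, map_mul, map_pow, hTh] }
  have : CharZero k' := charZero_of_injective_algebraMap (algebraMap k k').injective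
  have hσE : ∀ y : k', σ' y ∈ E₀ := by
    intro y
    obtain ⟨c0, hc0, hF⟩ := eqg_mem D S k' hk' y y.2
    have h1 : (c0 : Ω) ∈ k' := by
      rw [hc0]
      exact y.2
    have h2 : y = ⟨(c0 : Ω), h1⟩ := Subtype.ext hc0.symm
    rw [h2, hσ' c0 h1]
    exact hιE c0 hF
  let ρ : E₀ →ₐ[ℚ_[l]] ℂ_[l] :=
    { toRingHom := (τ : ℂ_[l] →+* ℂ_[l]).comp (algebraMap E₀ ℂ_[l])
      commutes' := fun q => eqg_fix l τ hτ q }
  have hρ : ∀ (z : ℂ_[l]) (hz : z ∈ E₀), ρ ⟨z, hz⟩ = τ z := fun _ _ => rfl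
  have hρσ : ∀ y : k', ρ ⟨σ' y, hσE y⟩ = (σ'.comp gk) y := by
    intro y
    rw [hρ]
    obtain ⟨c0, hc0, hF⟩ := eqg_mem D S k' hk' y y.2
    have h1 : (c0 : Ω) ∈ k' := by
      rw [hc0]
      exact y.2
    have h2 : y = ⟨(c0 : Ω), h1⟩ := Subtype.ext hc0.symm
    have h3 : ((g c0 : Acl k Ω) : Ω) ∈ k' := by
      rw [← D.ext]
      exact hgk _ h1
    have h4 : gk y = ⟨((g c0 : Acl k Ω) : Ω), h3⟩ := by
      rw [h2]
      exact Subtype.ext (D.ext g c0)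
    show τ (σ' y) = σ' (gk y)
    rw [h4, hσ' (g c0) h3, ← hτι, h2, hσ' c0 h1]
  obtain ⟨hC, hφ⟩ := hEQV k' Ω D' l σ' (σ'.comp gk) E₀ hE₀ hσE ρ hρσ P' P''
  have hThx : Th x = x' := Subtype.ext hx'x.symm
  have hiff : x ∈ P'.C ↔ x' ∈ P'.C := by
    constructor
    · intro h
      rw [hC] at h
      have h1 : Th x ∈ P'.C := h
      rwa [hThx] at h1
    · intro h
      rw [hC]
      show Th x ∈ P'.C
      rwa [hThx]
  refine ⟨hiff, ?_⟩
  intro hx hx'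
  have hx2 : x ∈ P''.C := by
    rw [← hC]
    exact hx
  obtain ⟨h1, h2⟩ := hφ x hx hx2
  have h3 : P''.φ ⟨x, hx2⟩ = P'.φ ⟨x', hx'⟩ := by
    show P'.φ ⟨Th x, hx2⟩ = P'.φ ⟨x', hx'⟩
    exact congrArg P'.φ (Subtype.ext hThx)
  rw [← h3, h2, hρ]

end Pool.Agent.Helper18.NF
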